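import Pool.Agent.H84.ND.Targets1
import Pool.Agent.H13.SM.EUB

/-!
# EUN: upper bound for the spaces of sections
-/

set_option autoImplicit false

namespace Pool.Agent.H66.ND

open MvPolynomial SC Pool.Agent.H27.LV Pool.Agent.H84.SM Pool.Agent.H84.ND

theorem pf_EUN (hLUB : T_LUB) (hLCO : T_LCO) (hLED : Pool.Agent.H84.SM.T_LED)
    (hEME : Pool.Agent.H84.SM.T_EME) : T_EUN := by
  intro k _ _ _ G d hd hG hGs hS n τ
  have hG0 : G ≠ 0 := hGs.ne_zero
  have hgF := Pool.Agent.H13.SM.gF_ne hG0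
  have hphi : ∀ (J : ℕ) (v : E G d n τ), Pool.Agent.H13.SM.phi G d n τ J v = 0 →
      (v : Polynomial (F2 k)).coeff J = 0 := by
    intro J v h
    rw [Pool.Agent.H13.SM.phi_apply] at h
    rcases mul_eq_zero.1 h with h | h
    · exact h
    · exact absurd h (pow_ne_zero _ hgF)
  have hB := fun J : ℕ => hLUB k G d hd hG hGs hS (n - 3 * J) (τ + ((d : ℤ) - 3) * J)
  have key := hLED k (E G d n τ) (F2 k) (n / 3 + 1)
    (fun i => Pool.Agent.H13.SM.phi G d n τ (n / 3 - i))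
    (fun i => SJ G d (n - 3 * (n / 3 - i)) (τ + ((d : ℤ) - 3) * ((n / 3 - i : ℕ) : ℤ))) ⊥
    (fun i => (hB (n / 3 - i)).1) inferInstance ?_ ?_
  · obtain ⟨h1, h2⟩ := key
    refine ⟨h1, h2.trans ?_⟩
    rw [finrank_bot, zero_add]
    have h3 : ∀ i : Fin (n / 3 + 1), Module.finrank k
        (SJ G d (n - 3 * (n / 3 - i)) (τ + ((d : ℤ) - 3) * ((n / 3 - (i : ℕ) : ℕ) : ℤ))) ≤
        (fun j : ℕ => ubs d (n - 3 * j) (τ + ((d : ℤ) - 3) * j)) (n / 3 + 1 - 1 - (i : ℕ)) := by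
      intro i
      have h4 := (hB (n / 3 - i)).2
      simp only [Nat.add_sub_cancel]
      exact h4
    refine (Finset.sum_le_sum fun i _ => h3 i).trans (le_of_eq ?_)
    rw [Fin.sum_univ_eq_sum_range (fun i : ℕ => (fun j : ℕ => ubs d (n - 3 * j)
        (τ + ((d : ℤ) - 3) * j)) (n / 3 + 1 - 1 - i))]
    exact Finset.sum_range_reflect (fun j : ℕ => ubs d (n - 3 * j) (τ + ((d : ℤ) - 3) * j))
      (n / 3 + 1)
  · -- vanishing
    intro v hv
    rw [Submodule.mem_bot]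
    obtain ⟨M, N, hN, hQ⟩ := (hEME k G d hd hG hG0 n τ v).1 v.2
    obtain ⟨-, ⟨e, -, he⟩, -⟩ := hN
    have h1 : (v : Polynomial (F2 k)) = 0 := by
      refine Polynomial.ext fun j => ?_
      rw [Polynomial.coeff_zero]
      by_cases hj : j ≤ n / 3
      · have h2 := hphi _ _ (hv ⟨n / 3 - j, by omega⟩)
        have h3 : n / 3 - (n / 3 - j) = j := by omega
        simp only [h3] at h2
        exact h2
      · rw [hQ, Pool.Agent.H13.SM.sec_coeff hG0]
        exact (he j).2 (by omega)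
    exact Subtype.ext h1
  · -- leading coefficients
    intro v i hv
    obtain ⟨M, N, hN, hQ⟩ := (hEME k G d hd hG hG0 n τ v).1 v.2
    rw [Pool.Agent.H13.SM.phi_apply, hQ]
    refine hLCO k G d hd hG hG0 n M τ N hN (n / 3 - i) (by omega) ?_
    intro j hj
    by_cases hj' : j ≤ n / 3
    · have h2 := hphi _ _ (hv ⟨n / 3 - j, by omega⟩ (by
        rw [Fin.lt_def]
        change n / 3 - j < (i : ℕ)
        omega))
      have h3 : n / 3 - (n / 3 - j) = j := by omega
      simp only [h3] at h2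
      rwa [hQ, Pool.Agent.H13.SM.sec_coeff hG0] at h2
    · obtain ⟨-, ⟨e, -, he⟩, -⟩ := hN
      exact (he j).2 (by omega)

end Pool.Agent.H66.ND
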