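import Pool.Agent.H84.ND.Targets1
import Pool.Agent.H13.SM.EUB

/-!
# LUB: upper bound for the spaces of sections of degree 0 in `w`
-/

set_option autoImplicit false

namespace Pool.Agent.H66.ND

open MvPolynomial SC Pool.Agent.H27.LV Pool.Agent.H84.SM Pool.Agent.H84.ND

theorem SJ_neg (hSME : T_SME) (k : Type) [Field k] [IsAlgClosed k] [CharZero k]
    (G : MvPolynomial (Fin 3) k) (d : ℕ) (hd : 1 ≤ d) (hG : G.IsHomogeneous d) (hG0 : G ≠ 0)
    (hS : Str G d) (i : ℕ) (t : ℤ) (ht : t < 0) : SJ G d i t = ⊥ := by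
  rw [eq_bot_iff]
  intro f hf
  obtain ⟨M, c, hc, hfc⟩ := (hSME k G d hd hG hG0 i t f).1 hf
  obtain ⟨t', rfl⟩ : ∃ t' : ℕ, t = -(t' : ℤ) := ⟨(-t).toNat, by omega⟩
  have h0 : c = 0 := hS i t' M c (by omega) hc
  rw [h0, map_zero] at hfc
  rw [Submodule.mem_bot]
  rcases mul_eq_zero.1 hfc with h | h
  · exact absurd h (pow_ne_zero _ (Pool.Agent.H13.SM.gF_ne hG0))
  · exact h

theorem pf_LUB (hLRS : T_LRS) (hSME : T_SME) : T_LUB := by
  intro k _ _ _ G d hd hG hGs hS i t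
  have hG0 : G ≠ 0 := hGs.ne_zero
  by_cases ht : t < 0
  · rw [SJ_neg hSME k G d hd hG hG0 hS i t ht]
    refine ⟨inferInstance, ?_⟩
    rw [finrank_bot]
    exact Nat.zero_le _
  · obtain ⟨n, rfl⟩ : ∃ n : ℕ, t = (n : ℤ) := ⟨t.toNat, by omega⟩
    clear ht
    induction n with
    | zero =>
      have h1 : SJ G d i (((0 : ℕ) : ℤ) - 1) = ⊥ :=
        SJ_neg hSME k G d hd hG hG0 hS i _ (by norm_num)
      have h2 := hLRS k G d hd hG hGs i ((0 : ℕ) : ℤ) (by rw [h1]; infer_instance)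
      refine ⟨h2.1, h2.2.trans (le_of_eq ?_)⟩
      rw [h1, finrank_bot, zero_add]
      unfold ubs
      rw [show (((0 : ℕ) : ℤ) + 1).toNat = 1 by rfl, Finset.sum_range_one]
    | succ n ih =>
      have h1 : (((n + 1 : ℕ) : ℤ) - 1) = (n : ℤ) := by push_cast; ring
      have h2 := hLRS k G d hd hG hGs i ((n + 1 : ℕ) : ℤ) (by rw [h1]; exact ih.1)
      rw [h1] at h2
      refine ⟨h2.1, h2.2.trans ?_⟩
      have h3 : ubs d i ((n + 1 : ℕ) : ℤ) = ubs d i (n : ℤ) + jd d i ((n + 1 : ℕ) : ℤ) := by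
        unfold ubs
        rw [show (((n + 1 : ℕ) : ℤ) + 1).toNat = n + 1 + 1 by omega,
          show ((n : ℤ) + 1).toNat = n + 1 by omega, Finset.sum_range_succ]
      rw [h3]
      exact Nat.add_le_add_right ih.2 _

end Pool.Agent.H66.ND
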